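import Pool.Agent.PT56.Final
import Pool.Agent.PT56.Aff

set_option autoImplicit false

namespace Pool.FF79.Old.DirectSums

/-- There is a tiling of the space in which every tile is a translate of `P` or a translate
of `-P`. -/
def TilesByTranslatesAndNegatives {V : Type} [AddCommGroup V] [TopologicalSpace V]
    (P : Set V) : Prop :=
  ∃ F : Set (Set V), (∀ T ∈ F, ∃ t : V, T = (fun x => t + x) '' P ∨ T = (fun x => t - x) '' P) ∧
    ⋃₀ F = Set.univ ∧ ∀ A ∈ F, ∀ B ∈ F, A ≠ B → Disjoint (interior A) (interior B)

/-- `P` is the convex hull of finitely many points and has interior points. -/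
def IsConvexPolytope {V : Type} [AddCommGroup V] [Module ℝ V] [TopologicalSpace V]
    (P : Set V) : Prop :=
  (∃ S : Set V, S.Finite ∧ P = convexHull ℝ S) ∧ (interior P).Nonempty

/-- `P` is centrally symmetric: `c - P ⊆ P` for some `c`. -/
def CentrallySymmetric {V : Type} [AddCommGroup V] (P : Set V) : Prop :=
  ∃ c : V, ∀ x ∈ P, c - x ∈ P

/-- **Direct sums.** Let `P i ⊆ ℝ^(d i)` be convex polytopes.  Their product, and every affine image
of it in `ℝ^n`, tiles by translates and negatives if and only if every `P i` does and at most one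
`P i` is not centrally symmetric. -/
theorem result {n r : ℕ} (d : Fin r → ℕ) (P : ∀ i, Set (EuclideanSpace ℝ (Fin (d i))))
    (hP : ∀ i, IsConvexPolytope (P i))
    (φ : (∀ i, EuclideanSpace ℝ (Fin (d i))) ≃ᵃ[ℝ] EuclideanSpace ℝ (Fin n)) :
    TilesByTranslatesAndNegatives (φ '' Set.univ.pi P) ↔
      (∀ i, TilesByTranslatesAndNegatives (P i)) ∧
        ∀ i j, ¬ CentrallySymmetric (P i) → ¬ CentrallySymmetric (P j) → i = j := by
  have h1 := PT56.tiles_affineEquiv φ (Set.univ.pi P)
  have h2 := PT56.main d P hP
  exact h1.trans h2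

end Pool.FF79.Old.DirectSums
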